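import Pool.Agent.Helper20.QD.St4

/-!
Project QD, part B, module FDG: degrees.
-/

set_option autoImplicit false

open Filter Topology Matrix Set Metric
open scoped ComplexConjugate ComplexOrder

namespace Pool.Agent.Helper8.QD

open Pool.Agent.Helper35.PM Pool.Agent.Helper20.QD

private theorem su_det {A : SL} (hA : IsSU A) :
    (A : Mat) 0 0 * conj ((A : Mat) 0 0) - (A : Mat) 0 1 * conj ((A : Mat) 0 1) = 1 := by
  have h := A.det_coe
  rw [Matrix.det_fin_two, hA.1, hA.2] at h
  exact h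

private theorem su_norm {A : SL} (hA : IsSU A) :
    ‖(A : Mat) 0 0‖ ^ 2 - ‖(A : Mat) 0 1‖ ^ 2 = 1 := by
  have h := su_det hA
  rw [Complex.mul_conj, Complex.mul_conj, Complex.normSq_eq_norm_sq,
    Complex.normSq_eq_norm_sq] at h
  exact_mod_cast h

private theorem su_lt {A : SL} (hA : IsSU A) : ‖(A : Mat) 0 1‖ < ‖(A : Mat) 0 0‖ := by
  have h := su_norm hA
  exact lt_of_pow_lt_pow_left₀ 2 (norm_nonneg _) (by linarith)

private theorem su_ne {A : SL} (hA : IsSU A) : (A : Mat) 0 0 ≠ 0 := by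
  have h := su_lt hA
  exact norm_pos_iff.1 (lt_of_le_of_lt (norm_nonneg _) h)

private theorem su_den {A : SL} (hA : IsSU A) {ζ : ℂ} (hζ : ζ ∈ SS) : den A ζ ≠ 0 := by
  intro h
  unfold den at h
  rw [hA.1, hA.2] at h
  have h1 : conj ((A : Mat) 0 0) = -(conj ((A : Mat) 0 1) * ζ) := by linear_combination h
  have h2 := congrArg norm h1
  rw [norm_neg, norm_mul, RCLike.norm_conj, RCLike.norm_conj, mem_sphere_zero_iff_norm.1 hζ,
    mul_one] at h2
  exact (su_lt hA).ne h2.symm

private theorem ss_ne {ζ : ℂ} (hζ : ζ ∈ SS) : ζ ≠ 0 := by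
  have h := mem_sphere_zero_iff_norm.1 hζ
  rw [← norm_pos_iff, h]
  exact one_pos

private theorem ss_conj {ζ : ℂ} (hζ : ζ ∈ SS) : ζ * conj ζ = 1 := by
  rw [Complex.mul_conj, Complex.normSq_eq_norm_sq, mem_sphere_zero_iff_norm.1 hζ]
  norm_num

private theorem su_maps {A : SL} (hA : IsSU A) {ζ : ℂ} (hζ : ζ ∈ SS) : mob A ζ ∈ SS := by
  have hd := su_den hA hζ
  have hn : ‖ζ‖ = 1 := mem_sphere_zero_iff_norm.1 hζ
  have e : den A ζ = ζ * conj ((A : Mat) 0 0 * ζ + (A : Mat) 0 1) := by
    unfold den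
    rw [hA.1, hA.2, map_add, map_mul]
    linear_combination (-conj ((A : Mat) 0 0)) * ss_conj hζ
  have h2 : ‖den A ζ‖ = ‖(A : Mat) 0 0 * ζ + (A : Mat) 0 1‖ := by
    rw [e, norm_mul, hn, one_mul, RCLike.norm_conj]
  rw [mem_sphere_zero_iff_norm]
  change ‖((A : Mat) 0 0 * ζ + (A : Mat) 0 1) / den A ζ‖ = 1
  rw [norm_div, ← h2]
  exact div_self (norm_ne_zero_iff.2 hd)

private theorem su_cont {A : SL} (hA : IsSU A) : ContinuousOn (mob A) SS := by
  have h1 : ContinuousOn (fun z : ℂ => (A : Mat) 0 0 * z + (A : Mat) 0 1) SS := by fun_prop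
  have h2 : ContinuousOn (fun z : ℂ => (A : Mat) 1 0 * z + (A : Mat) 1 1) SS := by fun_prop
  exact h1.div h2 (fun z hz => su_den hA hz)

private theorem su_inj {A : SL} (hA : IsSU A) : InjOn (mob A) SS := by
  intro z hz w hw h
  have h1 := su_den hA hz
  have h2 := su_den hA hw
  unfold mob at h
  unfold den at h1 h2
  rw [div_eq_div_iff h1 h2, hA.1, hA.2] at h
  linear_combination h - (z - w) * su_det hA

private theorem log_const (K : Set ℂ) {c : ℂ} (hc : c ≠ 0) : LogOn K (fun _ => c) :=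
  ⟨fun _ => Complex.log c, continuousOn_const, fun _ _ => (Complex.exp_log hc).symm⟩

private theorem su_log (hTPB : StTPB) {A : SL} (hA : IsSU A) :
    LogOn SS (fun ζ => mob A ζ * ζ ^ (-1 : ℤ)) ∧ LogOn SS (den A) := by
  have ha := su_ne hA
  have hca : conj ((A : Mat) 0 0) ≠ 0 := (map_ne_zero _).2 ha
  have hlt : ‖(A : Mat) 0 1‖ / ‖(A : Mat) 0 0‖ < 1 := by
    rw [div_lt_one (norm_pos_iff.2 ha)]
    exact su_lt hA
  have h1 : LogOn SS (fun ζ => 1 + conj ((A : Mat) 0 1) * ζ / conj ((A : Mat) 0 0)) := by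
    refine hTPB.2.2.2.2.1 SS _ ?_ ?_
    · fun_prop
    · intro z hz
      rw [add_sub_cancel_left, norm_div, norm_mul, RCLike.norm_conj, RCLike.norm_conj,
        mem_sphere_zero_iff_norm.1 hz, mul_one]
      exact hlt
  have h2 := hTPB.2.2.1 SS _ _ (log_const SS hca) h1
  have h3 : LogOn SS (den A) := by
    refine hTPB.2.2.2.2.2 SS SS _ _ Subset.rfl h2 ?_
    intro z hz
    unfold den
    rw [hA.1, hA.2]
    field_simp
    ring
  refine ⟨?_, h3⟩
  have h4 : LogOn SS (fun ζ => 1 + (A : Mat) 0 1 * ζ⁻¹ / (A : Mat) 0 0) := by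
    refine hTPB.2.2.2.2.1 SS _ ?_ ?_
    · have hi : ContinuousOn (fun z : ℂ => z⁻¹) SS := continuousOn_inv₀.mono fun z hz => ss_ne hz
      fun_prop
    · intro z hz
      rw [add_sub_cancel_left, norm_div, norm_mul, norm_inv,
        mem_sphere_zero_iff_norm.1 hz, inv_one, mul_one]
      exact hlt
  have h5 := hTPB.2.2.1 SS _ _ (hTPB.2.2.1 SS _ _ (log_const SS ha) h4)
    (hTPB.2.2.2.1 SS _ (-1) h3)
  refine hTPB.2.2.2.2.2 SS SS _ _ Subset.rfl h5 ?_
  intro z hz
  have hz0 := ss_ne hz
  have hd := su_den hA hz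
  show (A : Mat) 0 0 * (1 + (A : Mat) 0 1 * z⁻¹ / (A : Mat) 0 0) * den A z ^ (-1 : ℤ) =
    ((A : Mat) 0 0 * z + (A : Mat) 0 1) / den A z * z ^ (-1 : ℤ)
  rw [_root_.zpow_neg_one, _root_.zpow_neg_one]
  field_simp

private theorem su_deg (hTPB : StTPB) {A : SL} (hA : IsSU A) : Deg1 (mob A) :=
  ⟨su_cont hA, su_inj hA, fun _ hz => su_maps hA hz, (su_log hTPB hA).1⟩

private theorem deg_comp (hTPB : StTPB) {φ ψ : ℂ → ℂ} (hφ : Deg1 φ) (hψ : Deg1 ψ) :
    Deg1 (fun ζ => φ (ψ ζ)) := by
  obtain ⟨c1, i1, m1, l1⟩ := hφ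
  obtain ⟨c2, i2, m2, l2⟩ := hψ
  refine ⟨c1.comp c2 m2, i1.comp i2 m2, m1.comp m2, ?_⟩
  have h1 := hTPB.1 SS SS ψ _ c2 m2 l1
  have h2 := hTPB.2.2.1 SS _ _ h1 l2
  refine hTPB.2.2.2.2.2 SS SS _ _ Subset.rfl h2 ?_
  intro z hz
  have h3 := ss_ne (m2 hz)
  have h4 := ss_ne hz
  simp only [_root_.zpow_neg_one]
  field_simp

private theorem exp_mem (s : ℝ) : Complex.exp (s * Complex.I) ∈ SS := by
  rw [mem_sphere_zero_iff_norm, Complex.norm_exp_ofReal_mul_I]

private theorem lift {φ : ℂ → ℂ} (hm : MapsTo φ SS SS) (n : ℤ)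
    (h : LogOn SS (fun z => φ z * z ^ n)) :
    ∃ Φ : ℝ → ℝ, Continuous Φ ∧ (∀ s, Φ (s + 2 * Real.pi) = Φ s - 2 * Real.pi * n) ∧
      ∀ s : ℝ, φ (Complex.exp (s * Complex.I)) = Complex.exp (Φ s * Complex.I) := by
  obtain ⟨g, hg, hge⟩ := h
  refine ⟨fun s => (g (Complex.exp (s * Complex.I))).im - n * s, ?_, ?_, ?_⟩
  · have h1 : Continuous fun s : ℝ => g (Complex.exp (s * Complex.I)) :=
      hg.comp_continuous (by fun_prop) exp_mem
    exact (Complex.continuous_im.comp h1).sub (by fun_prop)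
  · intro s
    have e : Complex.exp (((s + 2 * Real.pi : ℝ) : ℂ) * Complex.I) =
        Complex.exp (s * Complex.I) := by
      push_cast
      rw [add_mul, Complex.exp_add, Complex.exp_two_pi_mul_I, mul_one]
    simp only [e]
    ring
  · intro s
    obtain ⟨z, hz⟩ : ∃ z, z = Complex.exp (s * Complex.I) := ⟨_, rfl⟩
    have hzS : z ∈ SS := by rw [hz]; exact exp_mem s
    simp only
    rw [← hz]
    have h1 := hge z hzS
    have hre : (g z).re = 0 := by
      have h2 := congrArg norm h1
      rw [norm_mul, norm_zpow, mem_sphere_zero_iff_norm.1 hzS,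
        mem_sphere_zero_iff_norm.1 (hm hzS), _root_.one_zpow, one_mul, Complex.norm_exp] at h2
      exact (Real.exp_eq_one_iff _).1 h2.symm
    have h3 : g z = (g z).im * Complex.I := by
      apply Complex.ext
      · simp [hre]
      · simp
    have h4 : z ^ n = Complex.exp (n * (s * Complex.I)) := by
      rw [Complex.exp_int_mul, hz]
    have h5 : z ^ n ≠ 0 := zpow_ne_zero _ (ss_ne hzS)
    have h6 : φ z = Complex.exp (g z) / z ^ n := by
      rw [eq_div_iff h5]
      exact h1
    rw [h6, h4, ← Complex.exp_sub]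
    congr 1
    push_cast
    linear_combination h3

theorem hFDG (hTCI : StTCI) (hTPB : StTPB) : StFDG := by
  refine ⟨fun A hA => su_log hTPB hA, ?_, fun φ ψ h1 h2 => deg_comp hTPB h1 h2, ?_⟩
  · intro A B φ hA hB hφ
    exact deg_comp hTPB (su_deg hTPB hA) (deg_comp hTPB hφ (su_deg hTPB hB))
  intro φ hc hi hm
  obtain ⟨n, hn⟩ := hTCI.2 φ hc (fun z hz => ss_ne (hm hz))
  obtain ⟨Φ, hΦ, hper, hΦe⟩ := lift hm n hn
  have hpi := Real.pi_pos
  -- injectivity modulo the period
  have key : ∀ (s t : ℝ) (k : ℤ), Φ s = Φ t + 2 * Real.pi * k →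
      ∃ m : ℤ, s = t + 2 * Real.pi * m := by
    intro s t k h
    have h1 : φ (Complex.exp (s * Complex.I)) = φ (Complex.exp (t * Complex.I)) := by
      rw [hΦe, hΦe, h, Complex.exp_eq_exp_iff_exists_int]
      exact ⟨k, by push_cast; ring⟩
    have h2 := hi (exp_mem s) (exp_mem t) h1
    rw [Complex.exp_eq_exp_iff_exists_int] at h2
    obtain ⟨m, hm⟩ := h2
    refine ⟨m, ?_⟩
    have h3 : ((s : ℂ) - t - 2 * Real.pi * m) * Complex.I = 0 := by linear_combination hm
    have h4 := (mul_eq_zero.1 h3).resolve_right Complex.I_ne_zero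
    have h5 : s - t - 2 * Real.pi * m = 0 := by exact_mod_cast h4
    linarith
  have h2pi : Φ (2 * Real.pi) = Φ 0 - 2 * Real.pi * n := by
    have := hper 0
    rwa [zero_add] at this
  -- the degree is not zero
  have hn0 : n ≠ 0 := by
    intro h0
    rw [h0] at hper
    obtain ⟨f, hf⟩ : ∃ f : ℝ → ℝ, f = fun s => Φ (s + Real.pi) - Φ s := ⟨_, rfl⟩
    have hfc : Continuous f := by
      rw [hf]
      exact (hΦ.comp (by fun_prop)).sub hΦ
    have h1 : f Real.pi = -f 0 := by
      rw [hf]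
      simp only [zero_add]
      have h2 := hper 0
      rw [zero_add] at h2
      rw [← two_mul, h2]
      simp
    have h3 : (0 : ℝ) ∈ uIcc (f 0) (f Real.pi) := by
      rw [h1, mem_uIcc]
      rcases le_total (f 0) 0 with h | h
      · left; constructor <;> linarith
      · right; constructor <;> linarith
    obtain ⟨s, -, hs⟩ := intermediate_value_uIcc (hfc.continuousOn (s := uIcc 0 Real.pi)) h3
    rw [hf] at hs
    simp only at hs
    obtain ⟨m, hm⟩ := key (s + Real.pi) s 0 (by simp; linarith)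
    have h4 : Real.pi * (1 - 2 * m) = 0 := by linarith
    have h5 := (mul_eq_zero.1 h4).resolve_left hpi.ne'
    have h6 : (1 : ℤ) - 2 * m = 0 := by exact_mod_cast h5
    omega
  -- the degree is plus or minus one
  have step : ∀ e : ℤ, (e = 1 ∨ e = -1) → 0 < e * n → n = e := by
    intro e he hen
    have h1 : Φ 0 - 2 * Real.pi * e ∈ uIcc (Φ 0) (Φ (2 * Real.pi)) := by
      rw [h2pi, mem_uIcc]
      rcases he with he | he
      · right
        subst he
        have h2 : (1 : ℝ) ≤ n := by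
          have : 1 ≤ n := by omega
          exact_mod_cast this
        push_cast
        constructor <;> nlinarith
      · left
        subst he
        have h2 : (n : ℝ) ≤ -1 := by
          have : n ≤ -1 := by omega
          exact_mod_cast this
        push_cast
        constructor <;> nlinarith
    obtain ⟨s, hs, hse⟩ := intermediate_value_uIcc (hΦ.continuousOn (s := uIcc 0 (2 * Real.pi))) h1
    rw [uIcc_of_le (by positivity)] at hs
    obtain ⟨m, hm⟩ := key s 0 (-e) (by rw [hse]; push_cast; ring)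
    rw [zero_add] at hm
    have h3 : (0 : ℝ) ≤ m := by
      have := hs.1
      rw [hm] at this
      by_contra hneg
      push Not at hneg
      nlinarith
    have h4 : (m : ℝ) ≤ 1 := by
      have := hs.2
      rw [hm] at this
      by_contra hneg
      push Not at hneg
      nlinarith
    have h3' : 0 ≤ m := by exact_mod_cast h3
    have h4' : m ≤ 1 := by exact_mod_cast h4
    have h5 : m = 0 ∨ m = 1 := by omega
    rcases h5 with h5 | h5
    · rw [h5] at hm
      simp only [Int.cast_zero, mul_zero] at hm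
      rw [hm] at hse
      have h6 : Real.pi * (e : ℝ) = 0 := by linarith
      have h7 := (mul_eq_zero.1 h6).resolve_left hpi.ne'
      have h8 : e = 0 := by exact_mod_cast h7
      omega
    · rw [h5] at hm
      simp only [Int.cast_one, mul_one] at hm
      rw [hm, h2pi] at hse
      have h6 : Real.pi * ((n : ℝ) - e) = 0 := by linarith
      have h7 := (mul_eq_zero.1 h6).resolve_left hpi.ne'
      have h8 : (n : ℝ) = e := by linarith
      exact_mod_cast h8
  have hn1 : n = 1 ∨ n = -1 := by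
    rcases lt_trichotomy n 0 with h | h | h
    · right
      exact step (-1) (Or.inr rfl) (by omega)
    · exact absurd h hn0
    · left
      exact step 1 (Or.inl rfl) (by omega)
  constructor
  · -- onto
    intro w hw
    have hw' : w = Complex.exp ((Complex.arg w : ℝ) * Complex.I) := by
      have h := Complex.norm_mul_exp_arg_mul_I w
      rw [mem_sphere_zero_iff_norm.1 hw] at h
      rw [Complex.ofReal_one, one_mul] at h
      exact h.symm
    obtain ⟨a, ha⟩ : ∃ a : ℝ, a = min (Φ 0) (Φ (2 * Real.pi)) := ⟨_, rfl⟩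
    obtain ⟨θ, hθ⟩ : ∃ θ : ℝ, θ = toIcoMod Real.two_pi_pos a (Complex.arg w) := ⟨_, rfl⟩
    have hθm := toIcoMod_mem_Ico Real.two_pi_pos a (Complex.arg w)
    rw [← hθ] at hθm
    have h1 : θ ∈ uIcc (Φ 0) (Φ (2 * Real.pi)) := by
      rw [mem_uIcc]
      rcases hn1 with h | h
      · right
        rw [h] at h2pi
        have h3 : a = Φ (2 * Real.pi) := by
          rw [ha]
          refine min_eq_right ?_
          rw [h2pi]
          push_cast
          linarith
        rw [h3] at hθm
        push_cast at h2pi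
        refine ⟨hθm.1, ?_⟩
        linarith [hθm.2]
      · left
        rw [h] at h2pi
        have h3 : a = Φ 0 := by
          rw [ha]
          refine min_eq_left ?_
          rw [h2pi]
          push_cast
          linarith
        rw [h3] at hθm
        push_cast at h2pi
        refine ⟨hθm.1, ?_⟩
        linarith [hθm.2]
    obtain ⟨s, -, hs⟩ := intermediate_value_uIcc (hΦ.continuousOn (s := uIcc 0 (2 * Real.pi))) h1
    refine ⟨Complex.exp (s * Complex.I), exp_mem s, ?_⟩
    rw [hΦe, hs, hw', Complex.exp_eq_exp_iff_exists_int]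
    refine ⟨-toIcoDiv Real.two_pi_pos a (Complex.arg w), ?_⟩
    rw [hθ]
    have h2 := toIcoMod_add_toIcoDiv_zsmul Real.two_pi_pos a (Complex.arg w)
    rw [zsmul_eq_mul] at h2
    have h3 : toIcoMod Real.two_pi_pos a (Complex.arg w) =
        Complex.arg w - (toIcoDiv Real.two_pi_pos a (Complex.arg w)) * (2 * Real.pi) := by
      linarith
    rw [h3]
    push_cast
    ring
  · rcases hn1 with h | h
    · right
      refine ⟨Complex.continuous_conj.comp_continuousOn hc, ?_, ?_, ?_⟩
      · intro z hz w hw hzw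
        exact hi hz hw ((starRingEnd ℂ).injective hzw)
      · intro z hz
        rw [mem_sphere_zero_iff_norm, RCLike.norm_conj]
        exact mem_sphere_zero_iff_norm.1 (hm hz)
      · have h1 := hTPB.2.2.2.1 SS _ (-1) hn
        refine hTPB.2.2.2.2.2 SS SS _ _ Subset.rfl h1 ?_
        intro z hz
        have h2 := ss_ne (hm hz)
        have h3 := ss_ne hz
        have h4 : conj (φ z) = (φ z)⁻¹ := by
          exact eq_inv_of_mul_eq_one_right (ss_conj (hm hz))
        simp only
        rw [h4, h, zpow_one, _root_.zpow_neg_one, _root_.zpow_neg_one, mul_inv]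
    · left
      rw [h] at hn
      exact ⟨hc, hi, hm, hn⟩

end Pool.Agent.Helper8.QD
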